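import Pool.Agent.H.MP_7172bf_co.helper55.Lower

/-!
# A local problem on the square grid with uniform complexity `Θ((1/ε)^{1/r})`, `r = 1/2`

The definitions (`LocalProblem`, `Algorithm`, `ComplexityTheta`) are in
`Pool.Agent.H.MP_7172bf_co.helper55.Defs`.
-/

namespace Pool.Agent.Results.MP_7172bf_co.NonIntegerRoot

open MP7172bf

/-- There are a dimension `d ≥ 1` (namely `d = 2`), a local problem on `ℤ^d` and a positive
real `r` which is not a natural number (namely `r = 1/2`) such that the uniform complexity of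
the problem is `Θ((1/ε)^{1/r})`. -/
theorem result : ∃ (d : ℕ) (P : LocalProblem d) (r : ℝ),
    d = 2 ∧ r = 1 / 2 ∧ 1 ≤ d ∧ 0 < r ∧ (∀ k : ℕ, r ≠ k) ∧
      P.ComplexityTheta fun ε => (1 / ε) ^ (1 / r) := by
  refine ⟨2, PP, 1 / 2, rfl, rfl, by norm_num, by norm_num, ?_, ?_⟩
  · intro k h
    have h2 : (1 : ℝ) = 2 * k := by linarith
    have h3 : (1 : ℕ) = 2 * k := by exact_mod_cast h2
    omega
  · have e : (fun ε : ℝ => (1 / ε) ^ (1 / (1 / 2 : ℝ))) = fun ε : ℝ => (1 / ε) ^ (2 : ℕ) := by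
      funext ε
      have : (1 / (1 / 2 : ℝ)) = ((2 : ℕ) : ℝ) := by norm_num
      rw [this, Real.rpow_natCast]
    rw [e]
    exact ⟨⟨AA, AA_solves, 20815, by norm_num, AA_upper⟩, lower⟩

end Pool.Agent.Results.MP_7172bf_co.NonIntegerRoot
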